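import Mathlib
import Pool.Agent.Helper495.Rb.Basic

/-! The maximal germ of nowhere dense sets. -/

set_option linter.unusedSectionVars false

open Set Filter Topology Pointwise

namespace H495R

variable {G : Type*} [Group G] [TopologicalSpace G] [IsTopologicalGroup G]

lemma exists_chain {α : Type*} (P : α → Prop) (R : ℕ → α → α → Prop) (a0 : α) (h0 : P a0)
    (hstep : ∀ n a, P a → ∃ b, P b ∧ R n a b) :
    ∃ f : ℕ → α, f 0 = a0 ∧ (∀ n, P (f n)) ∧ ∀ n, R n (f n) (f (n+1)) := by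
  choose! nx h1 h2 using hstep
  let f : ℕ → α := fun n => Nat.rec a0 (fun n a => nx n a) n
  have hP : ∀ n, P (f n) := by
    intro n
    induction n with
    | zero => exact h0
    | succ n ih => exact h1 n _ ih
  exact ⟨f, rfl, hP, fun n => h2 n _ (hP n)⟩

theorem exists_max_nwd [Countable G] [T1Space G] (hb : ClBase G) (hG : NoRes G) {F : Set G}
    (hF : LH F) (hcr : ∃ᶠ y in 𝓝 (1:G), y ∈ F ∧ y ≠ 1) :
    ∃ N, ClNwd F N ∧ (1:G) ∈ N ∧ ∀ A, ClNwd F A → ∀ᶠ y in 𝓝 (1:G), y ∈ A → y ∈ N := by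
  classical
  by_contra hcon
  push Not at hcon
  have H : ∀ N, ClNwd F N → (1:G) ∈ N → ∃ A, ClNwd F A ∧ ∃ᶠ y in 𝓝 (1:G), y ∈ A ∧ y ∉ N := by
    intro N hN h1
    obtain ⟨A, hA, hA2⟩ := hcon N hN h1
    exact ⟨A, hA, hA2⟩
  have T : ∀ N, ClNwd F N → ∀ x ∈ F, ∃ A, ClNwd F A ∧
      ∃ᶠ y in 𝓝 (1:G), x * y ∈ A ∧ x * y ∉ N ∧ x * y ≠ x := by
    intro N hN x hx
    obtain ⟨O1, hO1, h1O1, hN'⟩ := (hN.union (ClNwd.singleton hF hcr hx)).pull hb hF hx
    obtain ⟨A', hA', hfr⟩ := H _ hN' ⟨h1O1, by simp⟩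
    obtain ⟨O2, hO2, h1O2, hA⟩ := hA'.push hb hF hx
    refine ⟨_, hA, ?_⟩
    have e1 : ∀ᶠ y in 𝓝 (1:G), y ∈ O1 := hO1.isOpen.mem_nhds h1O1
    have e2 : ∀ᶠ y in 𝓝 (1:G), y ∈ O2 := hO2.isOpen.mem_nhds h1O2
    refine (hfr.and_eventually (e1.and e2)).mono ?_
    rintro y ⟨⟨h1, h2⟩, h3, h4⟩
    simp only [Set.mem_ofPred_eq, inv_mul_cancel_left, mem_union, mem_singleton_iff, not_and, not_or] at h2 ⊢
    exact ⟨⟨h4, h1⟩, h2 h3⟩
  obtain ⟨e, he⟩ := exists_surjective_nat G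
  obtain ⟨f, hf0, hfP, hfR⟩ := exists_chain (α := Set G × Set G)
    (fun s => ClNwd F (s.1 ∪ s.2) ∧ Disjoint s.1 s.2)
    (fun k s t => s.1 ⊆ t.1 ∧ s.2 ⊆ t.2 ∧ (e k ∈ F →
      (e k ∈ t.1 ∧ ∃ᶠ y in 𝓝 (1:G), e k * y ∈ t.2) ∨ (e k ∈ t.2 ∧ ∃ᶠ y in 𝓝 (1:G), e k * y ∈ t.1)))
    (∅, ∅) (by simpa using ClNwd.empty) (by
      rintro k ⟨P, Q⟩ ⟨hPQ, hdis⟩
      simp only at hPQ hdis
      by_cases hx : e k ∈ F
      · obtain ⟨A, hA, hfr⟩ := T _ hPQ _ hx
        by_cases hxQ : e k ∈ Q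
        · refine ⟨(P ∪ (A \ (P ∪ Q)), Q), ⟨?_, ?_⟩, subset_union_left, subset_rfl, ?_⟩
          · have : (P ∪ (A \ (P ∪ Q))) ∪ Q = (P ∪ Q) ∪ A := by
              ext z; simp only [mem_union, Set.mem_sdiff]; tauto
            simp only [this]
            exact hPQ.union hA
          · simp only
            rw [Set.disjoint_left] at hdis ⊢
            rintro z (hz | hz) hz2
            · exact hdis hz hz2
            · exact hz.2 (Or.inr hz2)
          · intro _
            right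
            refine ⟨hxQ, hfr.mono ?_⟩
            rintro y ⟨h1, h2, h3⟩
            exact Or.inr ⟨h1, h2⟩
        · refine ⟨(P ∪ {e k}, Q ∪ (A \ (P ∪ Q ∪ {e k}))), ⟨?_, ?_⟩, subset_union_left,
            subset_union_left, ?_⟩
          · have : (P ∪ {e k}) ∪ (Q ∪ (A \ (P ∪ Q ∪ {e k}))) = (P ∪ Q) ∪ ({e k} ∪ A) := by
              ext z; simp only [mem_union, Set.mem_sdiff, mem_singleton_iff]; tauto
            simp only [this]
            exact hPQ.union ((ClNwd.singleton hF hcr hx).union hA)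
          · simp only
            rw [Set.disjoint_left] at hdis ⊢
            rintro z (hz | hz) (hz2 | hz2)
            · exact hdis hz hz2
            · exact hz2.2 (Or.inl (Or.inl hz))
            · rw [mem_singleton_iff] at hz
              rw [hz] at hz2
              exact hxQ hz2
            · exact hz2.2 (Or.inr hz)
          · intro _
            left
            refine ⟨Or.inr rfl, hfr.mono ?_⟩
            rintro y ⟨h1, h2, h3⟩
            refine Or.inr ⟨h1, ?_⟩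
            rintro (h | h)
            · exact h2 h
            · exact h3 h
      · exact ⟨(P, Q), ⟨hPQ, hdis⟩, subset_rfl, subset_rfl, fun h => absurd h hx⟩)
  have mono1 : Monotone (fun k => (f k).1) := monotone_nat_of_le_succ (fun n => (hfR n).1)
  have mono2 : Monotone (fun k => (f k).2) := monotone_nat_of_le_succ (fun n => (hfR n).2.1)
  have hdis : ∀ j k, ∀ z, z ∈ (f j).1 → z ∈ (f k).2 → False := by
    intro j k z h1 h2
    have h1' := mono1 (le_max_left j k) h1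
    have h2' := mono2 (le_max_right j k) h2
    exact (Set.disjoint_left.1 (hfP (max j k)).2) h1' h2'
  apply hG
  refine res_of_LH hF (⋃ k, (f k).1) ?_
  intro x hx
  obtain ⟨k, rfl⟩ := he x
  rcases (hfR k).2.2 hx with ⟨h1, h2⟩ | ⟨h1, h2⟩
  · refine h2.mono ?_
    intro y hy
    refine ⟨(hfP (k+1)).1.sub (Or.inr hy), ?_⟩
    constructor
    · intro h
      obtain ⟨j, hj⟩ := mem_iUnion.1 h
      exact (hdis j _ _ hj hy).elim
    · intro h
      exact absurd (mem_iUnion.2 ⟨k+1, h1⟩) h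
  · refine h2.mono ?_
    intro y hy
    refine ⟨(hfP (k+1)).1.sub (Or.inl hy), ?_⟩
    constructor
    · intro _ h
      obtain ⟨j, hj⟩ := mem_iUnion.1 h
      exact hdis j _ _ hj h1
    · intro _
      exact mem_iUnion.2 ⟨k+1, hy⟩

end H495R
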