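import Mathlib
import Pool.Agent.Helper495.Rb.MaxNwd

/-! The maximal germ of nowhere dense sets is locally homogeneous. -/

set_option linter.unusedSectionVars false

open Set Filter Topology Pointwise

namespace H495R

variable {G : Type*} [Group G] [TopologicalSpace G] [IsTopologicalGroup G]

open Classical in
/-- greedy block counting -/
noncomputable def greedy (p : List ℕ → Prop) : ℕ × List ℕ → List ℕ → ℕ × List ℕ
  | s, [] => s
  | s, (m :: l) => if p (s.2 ++ [m]) then greedy p (s.1, s.2 ++ [m]) l else greedy p (s.1 + 1, [m]) l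

lemma greedy_append (p : List ℕ → Prop) (s : ℕ × List ℕ) (l l' : List ℕ) :
    greedy p s (l ++ l') = greedy p (greedy p s l) l' := by
  induction l generalizing s with
  | nil => rfl
  | cons m l ih =>
    simp only [List.cons_append, greedy]
    split_ifs <;> rw [ih]

lemma greedy_suffix (p : List ℕ → Prop) (l : List ℕ) (n : ℕ) (z : List ℕ) :
    (greedy p (n, z) l).2 <:+ z ++ l ∧ (z ++ l ≠ [] → (greedy p (n, z) l).2 ≠ []) := by
  induction l generalizing n z with
  | nil => simp [greedy]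
  | cons m l ih =>
    simp only [greedy]
    split_ifs with h
    · obtain ⟨h1, h2⟩ := ih n (z ++ [m])
      simp only [List.append_assoc, List.cons_append, List.nil_append] at h1 h2
      exact ⟨h1, h2⟩
    · obtain ⟨h1, h2⟩ := ih (n+1) [m]
      refine ⟨h1.trans ?_, fun _ => h2 (by simp)⟩
      exact ⟨z, by simp⟩

variable {U : G → Set G} {V : ℕ → Set G}

/-- end index of an element -/
def Coord.t (C : Coord U V) (x : G) : ℕ := last 0 (C.wd x)

lemma Coord.wd_inj (C : Coord U V) {x y : G} (h : C.wd x = C.wd y) : x = y := by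
  rw [← C.el_wd x, ← C.el_wd y, h]

lemma Coord.split (C : Coord U V) {g : G} {l l' : List ℕ} (h : C.wd g = l ++ l') :
    g = el C.lam l * el C.lam l' := by
  rw [← C.el_wd g, h, el_append]

lemma Coord.wd_ne (C : Coord U V) {x : G} (h : x ≠ 1) : C.wd x ≠ [] := by
  intro h2
  apply h
  rw [← C.el_wd x, h2]; rfl

lemma ev_W (C : Coord U V) (n : ℕ) : ∀ᶠ y in 𝓝 (1:G), y ∈ C.W n := C.W_nhds n

theorem exists_LH_nwd [Countable G] [T2Space G] (hb : ClBase G) (hG : NoRes G) {F : Set G}
    (hF : LH F) (hcr : ∃ᶠ y in 𝓝 (1:G), y ∈ F ∧ y ≠ 1) :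
    ∃ N, LH N ∧ ClNwd F N ∧ ∀ A, ClNwd F A → ∀ᶠ y in 𝓝 (1:G), y ∈ A → y ∈ N := by
  classical
  obtain ⟨N, hN, h1N, hmax⟩ := exists_max_nwd hb hG hF hcr
  set Nm : Set G := {x | x ∈ N ∧ ∃ᶠ y in 𝓝 (1:G), y ∈ N ∧ x * y ∉ N} with hNm
  have h1Nm : (1:G) ∉ Nm := by
    rintro ⟨_, h⟩
    obtain ⟨y, h1, h2⟩ := h.exists
    rw [one_mul] at h2
    exact h2 h1
  have hc : ∀ x ∈ N, ∀ᶠ y in 𝓝 (1:G), x * y ∈ N → y ∈ N := by
    intro x hx
    obtain ⟨O, hO, h1O, hA⟩ := hN.pull hb hF (hN.sub hx)
    have e1 : ∀ᶠ y in 𝓝 (1:G), y ∈ O := hO.isOpen.mem_nhds h1O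
    filter_upwards [hmax _ hA, e1] with y h1 h2 h3
    exact h1 ⟨h2, h3⟩
  have claim : ∀ᶠ x in 𝓝 (1:G), x ∉ Nm := by
    by_contra hfr
    have hfr : ∃ᶠ x in 𝓝 (1:G), x ∈ Nm := hfr
    -- coordinates
    let U : G → Set G := fun x => {y | (x ∈ F → (x * y ∈ F ↔ y ∈ F)) ∧ (x ∉ N → x * y ∉ N) ∧
      (x ∈ N → x * y ∈ N → y ∈ N) ∧ (x ∈ N → x ∉ Nm → y ∈ N → x * y ∈ N)}
    have hU : ∀ x, U x ∈ 𝓝 (1:G) := by
      intro x
      have e1 : ∀ᶠ y in 𝓝 (1:G), (x ∈ F → (x * y ∈ F ↔ y ∈ F)) := by
        by_cases hx : x ∈ F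
        · filter_upwards [hF.hom x hx] with y hy _ using hy
        · exact Eventually.of_forall (fun y h => absurd h hx)
      have e2 : ∀ᶠ y in 𝓝 (1:G), (x ∉ N → x * y ∉ N) := by
        by_cases hx : x ∈ N
        · exact Eventually.of_forall (fun y h => absurd hx h)
        · filter_upwards [ev_compl hN.closed hx] with y hy _ using hy
      have e3 : ∀ᶠ y in 𝓝 (1:G), (x ∈ N → x * y ∈ N → y ∈ N) := by
        by_cases hx : x ∈ N
        · filter_upwards [hc x hx] with y hy _ using hy
        · exact Eventually.of_forall (fun y h => absurd h hx)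
      have e4 : ∀ᶠ y in 𝓝 (1:G), (x ∈ N → x ∉ Nm → y ∈ N → x * y ∈ N) := by
        by_cases hx : x ∈ N ∧ x ∉ Nm
        · have : ¬ ∃ᶠ y in 𝓝 (1:G), y ∈ N ∧ x * y ∉ N := fun h => hx.2 ⟨hx.1, h⟩
          rw [Filter.not_frequently] at this
          filter_upwards [this] with y hy _ _ h
          by_contra hcon
          exact hy ⟨h, hcon⟩
        · exact Eventually.of_forall (fun y h h' => absurd ⟨h, h'⟩ hx)
      filter_upwards [e1, e2, e3, e4] with y h1 h2 h3 h4
      exact ⟨h1, h2, h3, h4⟩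
    have hU1 : U 1 = univ := by
      ext y
      simp [U, h1N]
    obtain ⟨C⟩ := exists_coord hb U (fun _ => univ) hU hU1 (fun _ => univ_mem) rfl
    have CU : ∀ x y, y ∈ C.W (C.t x) → (x ∈ F → (x * y ∈ F ↔ y ∈ F)) ∧ (x ∉ N → x * y ∉ N) ∧
      (x ∈ N → x * y ∈ N → y ∈ N) ∧ (x ∈ N → x ∉ Nm → y ∈ N → x * y ∈ N) := by
      intro x y hy
      exact C.U_sub x hy
    let p : List ℕ → Prop := fun l => el C.lam l ∈ N
    -- Lemma S
    have S : ∀ l z n, C.wd (el C.lam (z ++ l)) = z ++ l → el C.lam l ∈ N →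
        (el C.lam (z ++ l) ∈ N → greedy p (n, z) l = (n, z ++ l)) ∧
        (el C.lam (z ++ l) ∉ N → l ≠ [] → (greedy p (n, z) l).1 = n + 1) := by
      intro l
      induction l with
      | nil => intro z n _ _; simp [greedy]
      | cons m l ih =>
        intro z n hv hl
        have hv1 : C.wd (el C.lam (z ++ m :: l)) = (z ++ [m]) ++ l := by rw [hv]; simp
        obtain ⟨d1, d2, d3⟩ := C.dec _ _ _ hv1
        obtain ⟨_, d4, _⟩ := C.dec _ _ _ hv
        have hv2 : C.wd (el C.lam (m :: l)) = [m] ++ l := by rw [d4]; rfl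
        obtain ⟨d5, _, d6⟩ := C.dec _ _ _ hv2
        have hm : el C.lam [m] ∈ N ∧ el C.lam l ∈ N := by
          have hy : el C.lam l ∈ C.W (C.t (el C.lam [m])) := by
            unfold Coord.t; rw [d5]; exact d6
          have hCU := CU _ _ hy
          have hprod : el C.lam [m] * el C.lam l ∈ N := by
            have : el C.lam [m] * el C.lam l = el C.lam (m :: l) := by simp
            rwa [this]
          have h1 : el C.lam [m] ∈ N := by
            by_contra hcon
            exact hCU.2.1 hcon hprod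
          exact ⟨h1, hCU.2.2.1 h1 hprod⟩
        have hv' : C.wd (el C.lam ((z ++ [m]) ++ l)) = (z ++ [m]) ++ l := by
          have : (z ++ [m]) ++ l = z ++ m :: l := by simp
          rw [this]; exact hv
        have hv'' : C.wd (el C.lam ([m] ++ l)) = [m] ++ l := by
          have : [m] ++ l = m :: l := by simp
          rw [this]; exact d4
        by_cases hp : p (z ++ [m])
        · have hg : greedy p (n, z) (m :: l) = greedy p (n, z ++ [m]) l := by
            simp [greedy, hp]
          rw [hg]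
          obtain ⟨i1, i2⟩ := ih (z ++ [m]) n hv' hm.2
          have heq : (z ++ [m]) ++ l = z ++ m :: l := by simp
          rw [heq] at i1 i2
          refine ⟨i1, fun h _ => ?_⟩
          apply i2 h
          rintro rfl
          exact h hp
        · have hg : greedy p (n, z) (m :: l) = greedy p (n + 1, [m]) l := by
            simp [greedy, hp]
          rw [hg]
          have hnot : el C.lam (z ++ m :: l) ∉ N := by
            have hy : el C.lam l ∈ C.W (C.t (el C.lam (z ++ [m]))) := by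
              unfold Coord.t; rw [d1]; exact d3
            have := (CU _ _ hy).2.1 hp
            have heq : el C.lam (z ++ m :: l) = el C.lam (z ++ [m]) * el C.lam l := by
              rw [← el_append]; simp
            rwa [heq]
          refine ⟨fun h => absurd h hnot, fun _ _ => ?_⟩
          obtain ⟨i1, _⟩ := ih [m] (n+1) hv'' hm.2
          rw [i1 (by simpa using hl)]
    -- the counting function
    let st : G → ℕ × List ℕ := fun x => greedy p (0, []) (C.wd x)
    have hst : ∀ x, ∃ a, C.wd x = a ++ (st x).2 ∧ C.wd (el C.lam (st x).2) = (st x).2 ∧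
        last 0 (st x).2 = C.t x := by
      intro x
      obtain ⟨⟨a, ha⟩, h2⟩ := greedy_suffix p (C.wd x) 0 []
      simp only [List.nil_append] at ha h2
      refine ⟨a, ha.symm, (C.dec _ _ _ ha.symm).2.1, ?_⟩
      by_cases hx : C.wd x = []
      · have : (st x).2 = [] := by
          change (greedy p (0, []) (C.wd x)).2 = []
          rw [hx] at ha ⊢
          exact (List.append_eq_nil_iff.1 ha).2
        rw [this]; unfold Coord.t; rw [hx]
      · have hne := h2 hx
        unfold Coord.t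
        rw [← ha, last_append]
        exact last_eq_of_ne hne
    have step : ∀ x y, y ∈ C.W (C.t x) → y ∈ N →
        (el C.lam (st x).2 * y ∈ N → st (x * y) = ((st x).1, (st x).2 ++ C.wd y)) ∧
        (el C.lam (st x).2 * y ∉ N → y ≠ 1 → (st (x * y)).1 = (st x).1 + 1) := by
      intro x y hy hyN
      obtain ⟨a, h1, h2, h3⟩ := hst x
      have hwd : C.wd (x * y) = C.wd x ++ C.wd y := C.app x y hy
      have hst2 : st (x * y) = greedy p ((st x).1, (st x).2) (C.wd y) := by
        change greedy p (0, []) (C.wd (x * y)) = _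
        rw [hwd, greedy_append]
      have hel : el C.lam ((st x).2 ++ C.wd y) = el C.lam (st x).2 * y := by
        rw [el_append, C.el_wd]
      have hv : C.wd (el C.lam ((st x).2 ++ C.wd y)) = (st x).2 ++ C.wd y := by
        rw [hel, C.app _ _ (by rw [h2, h3]; exact hy), h2]
      obtain ⟨i1, i2⟩ := S (C.wd y) (st x).2 (st x).1 hv (by rwa [C.el_wd])
      rw [hel] at i1 i2
      rw [hst2]
      exact ⟨i1, fun h hy1 => i2 h (C.wd_ne hy1)⟩
    apply hG
    refine res_of_LH hF {x | Odd (st x).1} ?_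
    intro x hx
    have suff : (∃ᶠ y in 𝓝 (1:G), x * y ∈ F ∧ (st (x * y)).1 = (st x).1 + 1) →
        ∃ᶠ y in 𝓝 (1:G), x * y ∈ F ∧ (x * y ∈ {x | Odd (st x).1} ↔ x ∉ {x | Odd (st x).1}) := by
      intro h
      refine h.mono ?_
      rintro y ⟨h1, h2⟩
      refine ⟨h1, ?_⟩
      simp only [Set.mem_ofPred_eq, h2, Nat.odd_add_one]
    apply suff
    obtain ⟨a, h1, h2, h3⟩ := hst x
    have hW := ev_W C (C.t x)
    have hzt : C.t (el C.lam (st x).2) = C.t x := by unfold Coord.t; rw [h2, h3]; rfl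
    by_cases hz : el C.lam (st x).2 ∈ N
    · by_cases hz2 : el C.lam (st x).2 ∈ Nm
      · -- case II
        refine (hz2.2.and_eventually hW).mono ?_
        rintro y ⟨⟨hy1, hy2⟩, hy3⟩
        refine ⟨((CU x y hy3).1 hx).2 (hN.sub hy1), (step x y hy3 hy1).2 hy2 ?_⟩
        rintro rfl
        rw [mul_one] at hy2
        exact hy2 hz
      · -- case III
        refine freq_mul (P := fun y => y ∈ Nm ∧ y ∈ C.W (C.t x)) (hfr.and_eventually hW) ?_
        rintro y1 ⟨hy1, hy1W⟩
        refine (hy1.2.and_eventually (ev_W C (C.t y1))).mono ?_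
        rintro y2 ⟨⟨hy2, hy12⟩, hy2W⟩
        have hy1ne : y1 ≠ 1 := by
          rintro rfl
          exact h1Nm hy1
        have hy1F : x * y1 ∈ F := ((CU x y1 hy1W).1 hx).2 (hN.sub hy1.1)
        have hwd1 : C.wd (x * y1) = C.wd x ++ C.wd y1 := C.app x y1 hy1W
        have ht1 : C.t (x * y1) = C.t y1 := by
          unfold Coord.t
          rw [hwd1, last_append]
          exact last_eq_of_ne (C.wd_ne hy1ne)
        have hzy1 : el C.lam (st x).2 * y1 ∈ N := by
          have := CU (el C.lam (st x).2) y1 (by rw [hzt]; exact hy1W)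
          exact this.2.2.2 hz hz2 hy1.1
        have hst1 : st (x * y1) = ((st x).1, (st x).2 ++ C.wd y1) := (step x y1 hy1W hy1.1).1 hzy1
        have hy2ne : y2 ≠ 1 := by
          rintro rfl
          rw [mul_one] at hy12
          exact hy12 hy1.1
        have hnot : el C.lam (st (x * y1)).2 * y2 ∉ N := by
          rw [hst1]
          simp only [el_append, C.el_wd]
          intro hcon
          have hw : C.wd (el C.lam (st x).2 * y1 * y2) = (st x).2 ++ (C.wd y1 ++ C.wd y2) := by
            have e1 : C.wd (el C.lam (st x).2 * y1) = (st x).2 ++ C.wd y1 := by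
              rw [C.app _ _ (by rw [h2, h3]; exact hy1W), h2]
            rw [C.app, e1]
            · simp
            · rw [e1, last_append]
              rw [last_eq_of_ne (n' := 0) (C.wd_ne hy1ne)]
              exact hy2W
          obtain ⟨_, _, d⟩ := C.dec _ _ _ hw
          rw [el_append, C.el_wd, C.el_wd, h3] at d
          have := CU (el C.lam (st x).2) (y1 * y2) (by rw [hzt]; exact d)
          exact hy12 (this.2.2.1 hz (by rwa [← mul_assoc]))
        have hfin := (step (x * y1) y2 (by rw [ht1]; exact hy2W) hy2).2 hnot hy2ne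
        rw [← mul_assoc]
        refine ⟨((CU (x * y1) y2 (by rw [ht1]; exact hy2W)).1 hy1F).2 (hN.sub hy2), ?_⟩
        rw [hfin, hst1]
    · -- case I
      refine (hfr.and_eventually hW).mono ?_
      rintro y ⟨hy1, hy3⟩
      have hyne : y ≠ 1 := by
        rintro rfl
        exact h1Nm hy1
      refine ⟨((CU x y hy3).1 hx).2 (hN.sub hy1.1), (step x y hy3 hy1.1).2 ?_ hyne⟩
      exact (CU (el C.lam (st x).2) y (by rw [hzt]; exact hy3)).2.1 hz
  obtain ⟨O, hOs, hO, h1O⟩ := hb _ claim
  refine ⟨N ∩ O, ⟨⟨h1N, h1O⟩, hN.closed.inter hO.isClosed, ?_⟩, ⟨hN.closed.inter hO.isClosed,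
    fun x hx => hN.sub hx.1, ?_⟩, ?_⟩
  · rintro x ⟨hx, hxO⟩
    have hxNm : x ∉ Nm := hOs hxO
    have h2 : ∀ᶠ y in 𝓝 (1:G), y ∈ N → x * y ∈ N := by
      have : ¬ ∃ᶠ y in 𝓝 (1:G), y ∈ N ∧ x * y ∉ N := fun h => hxNm ⟨hx, h⟩
      rw [Filter.not_frequently] at this
      filter_upwards [this] with y hy h
      by_contra hcon
      exact hy ⟨h, hcon⟩
    have e1 : ∀ᶠ y in 𝓝 (1:G), y ∈ O := hO.isOpen.mem_nhds h1O
    filter_upwards [hc x hx, h2, e1, ev_open hO.isOpen hxO] with y a1 a2 a3 a4
    simp only [mem_inter_iff]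
    tauto
  · intro x hx
    refine (hN.dense x hx).mono ?_
    rintro y ⟨h1, h2⟩
    exact ⟨h1, fun h => h2 h.1⟩
  · intro A hA
    have e1 : ∀ᶠ y in 𝓝 (1:G), y ∈ O := hO.isOpen.mem_nhds h1O
    filter_upwards [hmax A hA, e1] with y h1 h2 h3
    exact ⟨h1 h3, h2⟩

end H495R
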