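import Mathlib
import Pool.Agent.Helper495.Rb.MaxNwd

/-! Selection lemmas for ultrafilters. -/

set_option linter.unusedSectionVars false

open Set Filter Topology

namespace H495R

variable {X : Type*}

lemma sel0 (P : Set (Ultrafilter X)) (hP : P.Infinite) :
    ∃ (p : ℕ → Ultrafilter X) (B : ℕ → Set X), (∀ i, p i ∈ P) ∧ (∀ i, B i ∈ p i) ∧
      ∀ i j, i ≠ j → Disjoint (B i) (B j) := by
  classical
  obtain ⟨p0, hp0⟩ := hP.nonempty
  obtain ⟨f, hf0, hfP, hfR⟩ := exists_chain (α := Set X × Ultrafilter X × Set X)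
    (fun s => {q | q ∈ P ∧ s.1 ∈ q}.Infinite)
    (fun _ s t => t.2.1 ∈ P ∧ t.2.2 ∈ t.2.1 ∧ t.2.2 ⊆ s.1 ∧ t.1 ⊆ s.1 ∧ Disjoint t.2.2 t.1)
    (univ, p0, ∅) (by
      have : {q : Ultrafilter X | q ∈ P ∧ univ ∈ q} = P := by
        ext q; exact ⟨fun h => h.1, fun h => ⟨h, univ_mem⟩⟩
      simp only [this]
      exact hP) (by
      rintro n ⟨Z, p, B⟩ hZ
      simp only at hZ ⊢
      -- two distinct elements
      obtain ⟨q1, hq1, q2, hq2, hne⟩ := hZ.nontrivial
      have : ∃ E, E ∈ q1 ∧ E ∉ q2 := by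
        by_contra hcon
        push Not at hcon
        apply hne
        apply Ultrafilter.coe_le_coe.1
        intro s hs
        by_contra hs2
        have := hcon _ (Ultrafilter.compl_mem_iff_notMem.2 hs2)
        exact (Ultrafilter.compl_mem_iff_notMem.1 this) hs
      obtain ⟨E, hE1, hE2⟩ := this
      have hE2' : Eᶜ ∈ q2 := Ultrafilter.compl_mem_iff_notMem.2 hE2
      have hunion : {q | q ∈ P ∧ Z ∈ q} ⊆ {q | q ∈ P ∧ Z ∩ E ∈ q} ∪ {q | q ∈ P ∧ Z ∩ Eᶜ ∈ q} := by
        rintro q ⟨h1, h2⟩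
        by_cases h : E ∈ q
        · left; exact ⟨h1, inter_mem h2 h⟩
        · right; exact ⟨h1, inter_mem h2 (Ultrafilter.compl_mem_iff_notMem.2 h)⟩
      rcases Set.infinite_union.1 (hZ.mono hunion) with h | h
      · refine ⟨(Z ∩ E, q2, Z ∩ Eᶜ), h, hq2.1, inter_mem hq2.2 hE2', inter_subset_left,
          inter_subset_left, ?_⟩
        rw [Set.disjoint_left]
        rintro x ⟨_, h1⟩ ⟨_, h2⟩
        exact h1 h2
      · refine ⟨(Z ∩ Eᶜ, q1, Z ∩ E), h, hq1.1, inter_mem hq1.2 hE1, inter_subset_left,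
          inter_subset_left, ?_⟩
        rw [Set.disjoint_left]
        rintro x ⟨_, h1⟩ ⟨_, h2⟩
        exact h2 h1)
  have hant : ∀ m n, m ≤ n → (f n).1 ⊆ (f m).1 := fun m n h =>
    antitone_nat_of_succ_le (f := fun n => (f n).1) (fun n => (hfR n).2.2.2.1) h
  have key : ∀ i j, i < j → Disjoint (f (i+1)).2.2 (f (j+1)).2.2 := by
    intro i j hij
    rw [Set.disjoint_left]
    intro x hx1 hx2
    have h1 := (hfR j).2.2.1 hx2
    have h2 := hant (i+1) j (by omega) h1
    exact (Set.disjoint_left.1 (hfR i).2.2.2.2) hx1 h2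
  refine ⟨fun i => (f (i+1)).2.1, fun i => (f (i+1)).2.2, fun i => (hfR i).1, fun i => (hfR i).2.1, ?_⟩
  intro i j hij
  rcases lt_or_gt_of_ne hij with h | h
  · exact key i j h
  · exact (key j i h).symm

lemma split_infinite {M : Set ℕ} (hM : M.Infinite) :
    ∃ M1 M2 : Set ℕ, M1 ⊆ M ∧ M2 ⊆ M ∧ M1.Infinite ∧ M2.Infinite ∧ Disjoint M1 M2 := by
  classical
  have : Infinite M := hM.to_subtype
  let e := Nat.orderEmbeddingOfSet M
  have he : ∀ n, e n ∈ M := fun n => by
    have h := mem_range_self (f := e) n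
    rwa [Nat.orderEmbeddingOfSet_range] at h
  refine ⟨range (fun n => e (2*n)), range (fun n => e (2*n+1)), ?_, ?_, ?_, ?_, ?_⟩
  · rintro _ ⟨n, rfl⟩; exact he _
  · rintro _ ⟨n, rfl⟩; exact he _
  · apply Set.infinite_range_of_injective
    intro a b h
    have := e.injective h
    omega
  · apply Set.infinite_range_of_injective
    intro a b h
    have := e.injective h
    omega
  · rw [Set.disjoint_left]
    rintro _ ⟨a, rfl⟩ ⟨b, hb⟩
    have := e.injective hb
    omega

lemma sel1 (B : ℕ → Set X) (hB : ∀ i j, i ≠ j → Disjoint (B i) (B j)) (v : ℕ → Ultrafilter X) :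
    ∃ φ : ℕ → ℕ, StrictMono φ ∧ ∀ j, (⋃ i ∈ {i | i ≠ j}, B (φ i)) ∉ v (φ j) := by
  classical
  by_cases hc : ∃ i0, {j | B i0 ∈ v j}.Infinite
  · obtain ⟨i0, hi0⟩ := hc
    have hM : ({j | B i0 ∈ v j} \ {i0}).Infinite := hi0.sdiff (Set.finite_singleton i0)
    have : Infinite ↥({j | B i0 ∈ v j} \ {i0}) := hM.to_subtype
    let e := Nat.orderEmbeddingOfSet ({j | B i0 ∈ v j} \ {i0})
    have he : ∀ n, e n ∈ {j | B i0 ∈ v j} \ {i0} := fun n => by
      have h := mem_range_self (f := e) n
      rwa [Nat.orderEmbeddingOfSet_range] at h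
    refine ⟨e, e.strictMono, ?_⟩
    intro j hcon
    have h1 : B i0 ∈ v (e j) := (he j).1
    have h2 := inter_mem h1 hcon
    have h3 : B i0 ∩ (⋃ i ∈ {i | i ≠ j}, B (e i)) = ∅ := by
      rw [← Set.disjoint_iff_inter_eq_empty, Set.disjoint_left]
      intro x hx hx2
      simp only [mem_iUnion] at hx2
      obtain ⟨i, _, hi⟩ := hx2
      exact (Set.disjoint_left.1 (hB i0 (e i) (fun h => (he i).2 h.symm))) hx hi
    rw [h3] at h2
    exact (v (e j)).empty_notMem h2
  · push Not at hc
    have hT : ∀ i, {j | B i ∈ v j}.Finite := fun i => by simpa using hc i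
    obtain ⟨f, hf0, hfP, hfR⟩ := exists_chain (α := Set ℕ × ℕ)
      (fun s => s.1.Infinite)
      (fun _ s t => t.2 ∈ s.1 ∧ t.1 ⊆ s.1 ∧ (∀ k ∈ t.1, t.2 < k) ∧ (⋃ i ∈ t.1, B i) ∉ v t.2 ∧
        ∀ k ∈ t.1, B t.2 ∉ v k)
      (univ, 0) Set.infinite_univ (by
        rintro n ⟨M, j0⟩ hM
        simp only at hM ⊢
        obtain ⟨j, hj⟩ := hM.nonempty
        have hM' : (M \ ({k | B j ∈ v k} ∪ Set.Iic j)).Infinite :=
          hM.sdiff ((hT j).union (Set.finite_Iic j))
        obtain ⟨M1, M2, h1, h2, h3, h4, h5⟩ := split_infinite hM'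
        have hor : (⋃ i ∈ M1, B i) ∉ v j ∨ (⋃ i ∈ M2, B i) ∉ v j := by
          by_contra hcon
          push Not at hcon
          have h6 := inter_mem hcon.1 hcon.2
          have h7 : (⋃ i ∈ M1, B i) ∩ (⋃ i ∈ M2, B i) = ∅ := by
            rw [← Set.disjoint_iff_inter_eq_empty, Set.disjoint_left]
            intro x hx hx2
            simp only [mem_iUnion] at hx hx2
            obtain ⟨i, hi, hxi⟩ := hx
            obtain ⟨i', hi', hxi'⟩ := hx2
            refine (Set.disjoint_left.1 (hB i i' ?_)) hxi hxi'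
            rintro rfl
            exact (Set.disjoint_left.1 h5) hi hi'
          rw [h7] at h6
          exact (v j).empty_notMem h6
        rcases hor with h | h
        · refine ⟨(M1, j), h3, hj, fun k hk => (h1 hk).1, ?_, h, ?_⟩
          · intro k hk
            have := (h1 hk).2
            simp only [mem_union, mem_Iic, not_or, not_le] at this
            exact this.2
          · intro k hk
            have := (h1 hk).2
            simp only [mem_union, not_or] at this
            exact this.1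
        · refine ⟨(M2, j), h4, hj, fun k hk => (h2 hk).1, ?_, h, ?_⟩
          · intro k hk
            have := (h2 hk).2
            simp only [mem_union, mem_Iic, not_or, not_le] at this
            exact this.2
          · intro k hk
            have := (h2 hk).2
            simp only [mem_union, not_or] at this
            exact this.1)
    have hant : ∀ m n, m ≤ n → (f n).1 ⊆ (f m).1 := fun m n h =>
      antitone_nat_of_succ_le (f := fun n => (f n).1) (fun n => (hfR n).2.1) h
    refine ⟨fun k => (f (k+1)).2, ?_, ?_⟩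
    · apply strictMono_nat_of_lt_succ
      intro k
      exact (hfR k).2.2.1 _ (hfR (k+1)).1
    · intro j hcon
      have hsub : (⋃ i ∈ {i | i ≠ j}, B (f (i+1)).2) ⊆
          (⋃ i ∈ Set.Iio j, B (f (i+1)).2) ∪ (⋃ i ∈ (f (j+1)).1, B i) := by
        intro x hx
        simp only [mem_iUnion] at hx
        obtain ⟨i, hi, hxi⟩ := hx
        rcases lt_or_gt_of_ne hi with h | h
        · left
          simp only [mem_iUnion]
          exact ⟨i, h, hxi⟩
        · right
          simp only [mem_iUnion]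
          exact ⟨(f (i+1)).2, hant (j+1) i (by omega) (hfR i).1, hxi⟩
      have h1 := mem_of_superset hcon hsub
      rcases Ultrafilter.union_mem_iff.1 h1 with h | h
      · rw [Ultrafilter.finite_biUnion_mem_iff (Set.finite_Iio j)] at h
        obtain ⟨i, hi, hmem⟩ := h
        have hk : (f (j+1)).2 ∈ (f (i+1)).1 := hant (i+1) j (by have := mem_Iio.1 hi; omega) (hfR j).1
        exact (hfR i).2.2.2.2 _ hk hmem
      · exact (hfR j).2.2.2.1 h

lemma sel {ι : Type*} (R : Finset ι) (B : ℕ → Set X) (hB : ∀ i j, i ≠ j → Disjoint (B i) (B j))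
    (v : ι → ℕ → Ultrafilter X) :
    ∃ φ : ℕ → ℕ, StrictMono φ ∧ ∀ r ∈ R, ∀ j, (⋃ i ∈ {i | i ≠ j}, B (φ i)) ∉ v r (φ j) := by
  classical
  induction R using Finset.induction_on with
  | empty => exact ⟨id, strictMono_id, by simp⟩
  | insert r R hr ih =>
    obtain ⟨φ, h1, h2⟩ := ih
    obtain ⟨ψ, h3, h4⟩ := sel1 (fun i => B (φ i)) (fun i j hij => hB _ _ (fun h => hij (h1.injective h)))
      (fun i => v r (φ i))
    refine ⟨φ ∘ ψ, h1.comp h3, ?_⟩
    intro s hs j
    rcases Finset.mem_insert.1 hs with rfl | hs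
    · exact h4 j
    · intro hcon
      apply h2 s hs (ψ j)
      refine mem_of_superset hcon ?_
      intro x hx
      simp only [mem_iUnion] at hx ⊢
      obtain ⟨i, hi, hxi⟩ := hx
      exact ⟨ψ i, fun h => hi (h3.injective h), hxi⟩

end H495R
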