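import Mathlib
import Pool.Agent.Helper495.Rb.Main

/-! Transfer from subgroups. -/

open Set Filter Topology Pointwise

namespace H495R

variable {G : Type*} [Group G] [TopologicalSpace G] [IsTopologicalGroup G]

/-- A group with a resolvable subgroup is resolvable. -/
theorem res_of_subgroup (H : Subgroup G) (h : ∃ A : Set H, Dense A ∧ Dense Aᶜ) :
    ∃ B : Set G, Dense B ∧ Dense Bᶜ := by
  classical
  obtain ⟨A, hA, hA'⟩ := h
  let r : G → G := fun x => Quotient.out (x : G ⧸ H)
  have hr : ∀ x, (r x)⁻¹ * x ∈ H := by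
    intro x
    apply QuotientGroup.eq.1
    exact QuotientGroup.out_eq' _
  have hrr : ∀ x (a : H), r (r x * a) = r x := by
    intro x a
    have h1 : ((r x * a : G) : G ⧸ H) = (x : G ⧸ H) := by
      rw [QuotientGroup.mk_mul_of_mem _ a.2]
      exact QuotientGroup.out_eq' _
    change Quotient.out ((r x * a : G) : G ⧸ H) = Quotient.out (x : G ⧸ H)
    rw [h1]
  have key : ∀ (A : Set H), Dense A → ∀ x : G, x ∈ closure {x | ∃ a ∈ A, (a : G) = (r x)⁻¹ * x} := by
    intro A hA x
    let f : H → G := fun h => r x * h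
    have hf : Continuous f := by fun_prop
    have h1 : f ⟨(r x)⁻¹ * x, hr x⟩ = x := by simp [f]
    have h2 : f ⟨(r x)⁻¹ * x, hr x⟩ ∈ f '' closure A := ⟨_, hA _, rfl⟩
    have h3 := image_closure_subset_closure_image hf h2
    rw [h1] at h3
    refine closure_mono ?_ h3
    rintro _ ⟨a, ha, rfl⟩
    refine ⟨a, ha, ?_⟩
    simp only [f]
    rw [hrr]
    simp
  refine ⟨{x | ∃ a ∈ A, (a : G) = (r x)⁻¹ * x}, fun x => key A hA x, fun x => ?_⟩
  refine closure_mono ?_ (key Aᶜ hA' x)
  rintro y ⟨a, ha, hay⟩ ⟨b, hb, hby⟩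
  have : a = b := Subtype.ext (by rw [hay, hby])
  exact ha (this ▸ hb)

omit [IsTopologicalGroup G] in
theorem UF_subgroup (H : Subgroup G) (hinf : Set.Infinite {p : Ultrafilter G |
    (p : Filter G) ≤ cofinite ∧ (p : Filter G) ≤ 𝓝 1 ∧ (H : Set G) ∈ p}) :
    (UF (univ : Set H)).Infinite := by
  intro hfin
  apply hinf
  refine (hfin.image (Ultrafilter.map (Subtype.val : H → G))).subset ?_
  rintro p ⟨h1, h2, h3⟩
  have hinj : Function.Injective (Subtype.val : H → G) := Subtype.val_injective
  have hr : range (Subtype.val : H → G) ∈ p := by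
    rw [Subtype.range_coe]; exact h3
  refine ⟨p.comap hinj hr, ⟨?_, ?_, univ_mem⟩, ?_⟩
  · rw [Ultrafilter.coe_comap, ← hinj.comap_cofinite_eq]
    exact comap_mono h1
  · rw [Ultrafilter.coe_comap, nhds_subtype_eq_comap]
    exact comap_mono h2
  · apply Ultrafilter.coe_injective
    rw [Ultrafilter.coe_map, Ultrafilter.coe_comap, Filter.map_comap_of_mem hr]

theorem countable_case [Countable G] (hinf : (UF (univ : Set G)).Infinite) :
    ∃ A : Set G, Dense A ∧ Dense Aᶜ := by
  by_cases h : T2Space G
  · exact countable_T2 hinf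
  · exact not_T2 h

theorem countable_subgroup (H : Subgroup G) [Countable H] (hinf : Set.Infinite {p : Ultrafilter G |
    (p : Filter G) ≤ cofinite ∧ (p : Filter G) ≤ 𝓝 1 ∧ (H : Set G) ∈ p}) :
    ∃ A : Set G, Dense A ∧ Dense Aᶜ :=
  res_of_subgroup H (countable_case (UF_subgroup H hinf))

omit [TopologicalSpace G] [IsTopologicalGroup G] in
theorem closure_countable {C : Set G} (hC : C.Countable) : Countable (Subgroup.closure C) := by
  have : Countable C := hC.to_subtype
  have h2 : ((FreeGroup.lift (fun c : C => (c : G))).range : Subgroup G) = Subgroup.closure C := by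
    rw [FreeGroup.range_lift_eq_closure]
    simp
  rw [← h2]
  have h3 : Countable (FreeGroup C) := by
    unfold FreeGroup
    infer_instance
  exact (MonoidHom.rangeRestrict_surjective (FreeGroup.lift (fun c : C => (c : G)))).countable

end H495R
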