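import Mathlib
import Pool.Agent.Helper495.Rb.Ext

/-! Groups all of whose irresolvable group topologies have a countable neighbourhood of `1`. -/

open Set Filter Topology Pointwise

namespace H495R

universe u

/-- every group topology without a partition into two dense sets has a countable
neighbourhood of the identity -/
def Good (G : Type*) [Group G] : Prop :=
  ∀ [TopologicalSpace G] [IsTopologicalGroup G], NoRes G → ∃ U ∈ 𝓝 (1:G), U.Countable

theorem res_of_good {G : Type*} [Group G] [TopologicalSpace G] [IsTopologicalGroup G] (hG : Good G)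
    (hinf : (UF (univ : Set G)).Infinite) : ∃ A : Set G, Dense A ∧ Dense Aᶜ := by
  by_contra h
  obtain ⟨U, hU, hUc⟩ := hG h
  apply h
  have := closure_countable hUc
  apply countable_subgroup (Subgroup.closure U)
  refine hinf.mono ?_
  rintro p ⟨h1, h2, -⟩
  exact ⟨h1, h2, mem_of_superset (h2 hU) Subgroup.subset_closure⟩

theorem good_of_countable {G : Type*} [Group G] [Countable G] : Good G := by
  intro _ _ _
  exact ⟨univ, univ_mem, countable_univ⟩

/-- closure under extensions -/
theorem good_of_extension {G : Type*} [Group G] (N : Subgroup G) [N.Normal] (hN : Good N)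
    (hQ : Good (G ⧸ N)) : Good G := by
  intro _ _ hres
  have hNres : NoRes N := fun h => hres (res_of_subgroup N h)
  have hQres : NoRes (G ⧸ N) := by
    rintro ⟨A, hA, hA'⟩
    apply hres
    have ho : IsOpenMap (QuotientGroup.mk : G → G ⧸ N) := QuotientGroup.isOpenMap_coe
    exact ⟨QuotientGroup.mk ⁻¹' A, hA.preimage ho, by
      rw [← preimage_compl]; exact hA'.preimage ho⟩
  obtain ⟨U, hU, hUc⟩ := hN hNres
  obtain ⟨U', hU', hUc'⟩ := hQ hQres
  rw [nhds_subtype_eq_comap, mem_comap] at hU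
  obtain ⟨S, hS, hSU⟩ := hU
  have hSc : (S ∩ (N : Set G)).Countable := by
    refine (hUc.image Subtype.val).mono ?_
    rintro x ⟨h1, h2⟩
    exact ⟨⟨x, h2⟩, hSU h1, rfl⟩
  have hdiv : ∃ V ∈ 𝓝 (1:G), ∀ x ∈ V, ∀ y ∈ V, x⁻¹ * y ∈ S := by
    have h1 : Tendsto (fun p : G × G => p.1⁻¹ * p.2) (𝓝 (1, 1)) (𝓝 1) := by
      have : Continuous (fun p : G × G => p.1⁻¹ * p.2) := by fun_prop
      have h := this.tendsto (1, 1)
      simpa using h
    have h2 := h1 hS
    rw [nhds_prod_eq, mem_map, mem_prod_same_iff] at h2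
    obtain ⟨V, hV, hVs⟩ := h2
    exact ⟨V, hV, fun x hx y hy => hVs (mk_mem_prod hx hy)⟩
  obtain ⟨V, hV, hVS⟩ := hdiv
  have hUQ : (QuotientGroup.mk ⁻¹' U' : Set G) ∈ 𝓝 (1:G) := by
    have : ContinuousAt (QuotientGroup.mk : G → G ⧸ N) 1 := QuotientGroup.continuous_mk.continuousAt
    exact this.preimage_mem_nhds hU'
  refine ⟨V ∩ QuotientGroup.mk ⁻¹' U', inter_mem hV hUQ, ?_⟩
  have hcov : V ∩ QuotientGroup.mk ⁻¹' U' ⊆ ⋃ c ∈ U', {x | x ∈ V ∧ (x : G ⧸ N) = c} := by
    rintro x ⟨h1, h2⟩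
    simp only [mem_iUnion]
    exact ⟨_, h2, h1, rfl⟩
  refine (hUc'.biUnion ?_).mono hcov
  intro c _
  rcases Set.eq_empty_or_nonempty {x | x ∈ V ∧ (x : G ⧸ N) = c} with he | ⟨x0, hx0, hx0c⟩
  · rw [he]; exact countable_empty
  · refine ((hSc.image (fun s => x0 * s))).mono ?_
    rintro x ⟨h1, h2⟩
    refine ⟨x0⁻¹ * x, ⟨hVS _ hx0 _ h1, ?_⟩, by simp⟩
    exact QuotientGroup.eq.1 (by rw [hx0c, h2])

lemma exists_loc_const {G : Type*} [Group G] [TopologicalSpace G] [IsTopologicalGroup G]
    (hG : NoRes G) (A : Set G) : ∃ x : G, ∀ᶠ y in 𝓝 (1:G), (x * y ∈ A ↔ x ∈ A) := by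
  by_contra hcon
  push Not at hcon
  apply hG
  have key : ∀ x, ∃ᶠ y in 𝓝 (1:G), ¬ (x * y ∈ A ↔ x ∈ A) := by
    intro x
    exact (hcon x).mono (fun y hy => by tauto)
  refine ⟨A, ?_, ?_⟩
  · intro x
    by_cases hx : x ∈ A
    · exact subset_closure hx
    · rw [mem_closure_iff_frequently, ← map_mul_left_nhds_one x]
      exact (key x).mono (fun y hy => by tauto)
  · intro x
    by_cases hx : x ∈ A
    · rw [mem_closure_iff_frequently, ← map_mul_left_nhds_one x]
      exact (key x).mono (fun y hy hcon => by tauto)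
    · exact subset_closure hx

lemma exists_small_products {G : Type*} [Group G] [TopologicalSpace G] [IsTopologicalGroup G]
    (K : ℕ) : ∀ U ∈ 𝓝 (1:G), ∃ V ∈ 𝓝 (1:G), ∀ l : List G, l.length ≤ K → (∀ y ∈ l, y ∈ V) →
      l.prod ∈ U := by
  induction K with
  | zero =>
    intro U hU
    refine ⟨univ, univ_mem, ?_⟩
    intro l hl _
    have : l = [] := List.length_eq_zero_iff.1 (Nat.le_zero.1 hl)
    subst this
    simpa using mem_of_mem_nhds hU
  | succ K ih =>
    intro U hU
    obtain ⟨U1, hU1, hU1s⟩ : ∃ V ∈ 𝓝 (1:G), ∀ x ∈ V, ∀ y ∈ V, x * y ∈ U :=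
      exists_nhds_one_split hU
    obtain ⟨V, hV, hVs⟩ := ih U1 hU1
    refine ⟨V ∩ U1, inter_mem hV hU1, ?_⟩
    intro l hl hlV
    cases l with
    | nil => simpa using mem_of_mem_nhds hU
    | cons a l =>
      rw [List.prod_cons]
      refine hU1s _ (hlV a (by simp)).2 _ (hVs l ?_ ?_)
      · simpa using hl
      · intro y hy
        exact (hlV y (by simp [hy])).1

/-- subgroups of restricted direct products of countable groups -/
theorem good_of_restricted {G : Type*} [Group G] {ι : Type*} {D : ι → Type*} [∀ i, Group (D i)]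
    [∀ i, Countable (D i)] (φ : G →* (∀ i, D i)) (hφ : Function.Injective φ)
    (hfin : ∀ x, {i | φ x i ≠ 1}.Finite) : Good G := by
  classical
  intro _ _ hres
  by_contra hunc
  push Not at hunc
  set s : G → ℕ := fun x => (hfin x).toFinset.card with hs
  obtain ⟨x, hx⟩ := exists_loc_const hres {x | Even (Nat.log 2 (s x))}
  obtain ⟨V, hV, hVs⟩ := exists_small_products (s x + 2) _ hx
  obtain ⟨V', hV', hVV⟩ : ∃ V' ∈ 𝓝 (1:G), ∀ x ∈ V', ∀ y ∈ V', x⁻¹ * y ∈ V := by
    have h1 : Tendsto (fun p : G × G => p.1⁻¹ * p.2) (𝓝 (1, 1)) (𝓝 1) := by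
      have : Continuous (fun p : G × G => p.1⁻¹ * p.2) := by fun_prop
      have h := this.tendsto (1, 1)
      simpa using h
    have h2 := h1 hV
    rw [nhds_prod_eq, mem_map, mem_prod_same_iff] at h2
    obtain ⟨V, hV, hVs⟩ := h2
    exact ⟨V, hV, fun x hx y hy => hVs (mk_mem_prod hx hy)⟩
  -- the common size
  obtain ⟨t, ht1, ht⟩ : ∃ t, 1 ≤ t ∧ ∀ C : Set ι, C.Countable → ∃ y ∈ V, s y = t ∧
      ∀ i ∈ C, φ y i = 1 := by
    by_contra hcon
    push Not at hcon
    choose! C hC hC2 using hcon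
    have hCc : (⋃ t ∈ {t | 1 ≤ t}, C t).Countable :=
      (Set.to_countable _).biUnion (fun t ht => hC t ht)
    set CC := ⋃ t ∈ {t | 1 ≤ t}, C t with hCC
    have : Countable CC := hCc.to_subtype
    have hfin2 : ∀ x, {p : Σ i : CC, D i | φ x p.1 = p.2 ∧ p.2 ≠ 1}.Finite := by
      intro x
      have : InjOn (fun p : Σ i : CC, D i => (p.1 : ι)) {p : Σ i : CC, D i | φ x p.1 = p.2 ∧ p.2 ≠ 1} := by
        rintro ⟨i, a⟩ ⟨h1, -⟩ ⟨j, b⟩ ⟨h2, -⟩ hij
        have hij' : i = j := Subtype.ext hij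
        subst hij'
        simp only at h1 h2
        rw [← h1, ← h2]
      refine Set.Finite.of_finite_image ((hfin x).subset ?_) this
      rintro _ ⟨⟨i, a⟩, ⟨h1, h2⟩, rfl⟩
      simp only at h1 h2
      simp only [Set.mem_ofPred_eq]
      rw [h1]; exact h2
    let code : G → Finset (Σ i : CC, D i) := fun x => (hfin2 x).toFinset
    have hni : ¬ InjOn code V' := by
      intro hinj
      exact hunc V' hV' (Set.MapsTo.countable_of_injOn (t := univ) (fun x _ => mem_univ _) hinj
        countable_univ)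
    simp only [InjOn] at hni
    push Not at hni
    obtain ⟨a, ha, b, hb, hab, hne⟩ := hni
    have hcode : ∀ i ∈ CC, φ a i = φ b i := by
      intro i hi
      have h1 : ∀ p : Σ i : CC, D i, (φ a p.1 = p.2 ∧ p.2 ≠ 1) ↔ (φ b p.1 = p.2 ∧ p.2 ≠ 1) := by
        intro p
        have h2 : p ∈ code a ↔ p ∈ code b := by rw [hab]
        simpa [code] using h2
      by_cases h3 : φ a i = 1
      · by_cases h4 : φ b i = 1
        · rw [h3, h4]
        · exact ((h1 ⟨⟨i, hi⟩, φ b i⟩).2 ⟨rfl, h4⟩).1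
      · exact ((h1 ⟨⟨i, hi⟩, φ a i⟩).1 ⟨rfl, h3⟩).1.symm
    have hy : a⁻¹ * b ∈ V := hVV _ ha _ hb
    have hy1 : a⁻¹ * b ≠ 1 := by
      intro h
      exact hne (inv_mul_eq_one.1 h)
    have hyC : ∀ i ∈ CC, φ (a⁻¹ * b) i = 1 := by
      intro i hi
      rw [map_mul, map_inv, Pi.mul_apply, Pi.inv_apply, hcode i hi]
      simp
    have hsy : 1 ≤ s (a⁻¹ * b) := by
      rw [Nat.one_le_iff_ne_zero]
      intro h0
      apply hy1
      apply hφ
      rw [map_one]
      funext i
      by_contra hi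
      have h5 : i ∈ (hfin (a⁻¹ * b)).toFinset := by simpa using hi
      rw [Finset.card_eq_zero.1 h0] at h5
      simp at h5
    obtain ⟨i, hi, hi2⟩ := hC2 (s (a⁻¹ * b)) hsy _ hy rfl
    exact hi2 (hyC i (by simp only [hCC, mem_iUnion]; exact ⟨_, hsy, hi⟩))
  -- sizes of products
  have hsize : ∀ k ≤ s x + 2, ∃ l : List G, l.length = k ∧ (∀ y ∈ l, y ∈ V) ∧
      s (x * l.prod) = s x + k * t := by
    intro k
    induction k with
    | zero => intro _; exact ⟨[], rfl, by simp, by simp⟩
    | succ k ih =>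
      intro hk
      obtain ⟨l, hl1, hl2, hl3⟩ := ih (by omega)
      obtain ⟨y, hy, hyt, hyC⟩ := ht {i | φ (x * l.prod) i ≠ 1} (hfin _).countable
      refine ⟨l ++ [y], by simp [hl1], ?_, ?_⟩
      · intro z hz
        rcases List.mem_append.1 hz with hz | hz
        · exact hl2 z hz
        · rw [List.mem_singleton.1 hz]; exact hy
      · have h1 : (hfin (x * (l ++ [y]).prod)).toFinset =
            (hfin (x * l.prod)).toFinset ∪ (hfin y).toFinset := by
          ext i
          simp only [Set.Finite.mem_toFinset, Finset.mem_union, Set.mem_ofPred_eq]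
          rw [List.prod_append, List.prod_singleton, ← mul_assoc, map_mul, Pi.mul_apply]
          by_cases h2 : φ (x * l.prod) i = 1
          · rw [h2]; simp
          · rw [hyC i h2]; simp
        have h2 : Disjoint (hfin (x * l.prod)).toFinset (hfin y).toFinset := by
          rw [Finset.disjoint_left]
          intro i hi hi2
          simp only [Set.Finite.mem_toFinset, Set.mem_ofPred_eq] at hi hi2
          exact hi2 (hyC i hi)
        have h3 : s (x * (l ++ [y]).prod) = s (x * l.prod) + s y := by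
          simp only [hs]
          rw [h1, Finset.card_union_of_disjoint h2]
        rw [h3, hl3, hyt]
        ring
  have hpar : ∀ k ≤ s x + 2, (Even (Nat.log 2 (s x + k * t)) ↔ Even (Nat.log 2 (s x))) := by
    intro k hk
    obtain ⟨l, hl1, hl2, hl3⟩ := hsize k hk
    have h1 := hVs l (by omega) hl2
    have h2 : (x * l.prod ∈ {x | Even (Nat.log 2 (s x))} ↔ x ∈ {x | Even (Nat.log 2 (s x))}) := h1
    simp only [Set.mem_ofPred_eq] at h2
    rwa [hl3] at h2
  have hstep : ∀ k, 1 ≤ k → k ≤ s x + 2 → Nat.log 2 (s x + k * t) = Nat.log 2 (s x + 1 * t) := by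
    intro k hk
    induction k, hk using Nat.le_induction with
    | base => intro _; rfl
    | succ k hk ih =>
      intro hk2
      have h1 := ih (by omega)
      rw [← h1]
      have h2 := hpar k (by omega)
      have h3 := hpar (k+1) hk2
      have h4 : Nat.log 2 (s x + k * t) ≤ Nat.log 2 (s x + (k+1) * t) :=
        Nat.log_mono_right (by nlinarith)
      have h5 : Nat.log 2 (s x + (k+1) * t) ≤ Nat.log 2 (s x + k * t) + 1 := by
        have h6 : s x + (k+1) * t ≤ (s x + k * t) * 2 := by nlinarith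
        have h7 : Nat.log 2 ((s x + k * t) * 2) = Nat.log 2 (s x + k * t) + 1 :=
          Nat.log_mul_base (by norm_num) (by nlinarith)
        rw [← h7]
        exact Nat.log_mono_right h6
      rcases Nat.lt_or_ge (Nat.log 2 (s x + k * t)) (Nat.log 2 (s x + (k+1) * t)) with h6 | h6
      · exfalso
        have h7 : Nat.log 2 (s x + (k+1) * t) = Nat.log 2 (s x + k * t) + 1 := by omega
        rw [h7] at h3
        rw [← h2, Nat.even_add_one] at h3
        tauto
      · omega
  have hend := hstep (s x + 2) (by omega) le_rfl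
  have h8 : Nat.log 2 ((s x + 1 * t) * 2) ≤ Nat.log 2 (s x + (s x + 2) * t) :=
    Nat.log_mono_right (by nlinarith)
  rw [Nat.log_mul_base (by norm_num) (by omega)] at h8
  omega

end H495R
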