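import Mathlib
import Pool.Agent.Helper495.Rb.Good

/-! Abelian groups embed in direct sums of countable groups. -/

open Set Filter Topology

namespace H495R

/-- the countable divisible group `ℚ × ℚ/ℤ` -/
abbrev EE : Type := ℚ × AddCircle (1:ℚ)

lemma EE_countable : Countable EE := by
  have : Countable (AddCircle (1:ℚ)) :=
    (QuotientAddGroup.mk_surjective (s := AddSubgroup.zmultiples (1:ℚ))).countable
  infer_instance

lemma EE_order (n : ℕ) : ∃ e : EE, addOrderOf e = n := by
  rcases Nat.eq_zero_or_pos n with rfl | hn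
  · refine ⟨(1, 0), ?_⟩
    rw [addOrderOf_eq_zero_iff']
    intro m hm h
    have h1 := congrArg Prod.fst h
    simp at h1
    omega
  · refine ⟨(0, (((1:ℚ) / n : ℚ) : AddCircle (1:ℚ))), ?_⟩
    have : Fact ((0:ℚ) < 1) := ⟨by norm_num⟩
    rw [Prod.addOrderOf]
    simp only [addOrderOf_zero, Nat.lcm_one_left]
    exact AddCircle.addOrderOf_period_div hn

/-- `ι →₀ EE` is divisible -/
lemma smul_surj {ι : Type*} {n : ℤ} (hn : n ≠ 0) :
    Function.Surjective (fun f : ι →₀ EE => n • f) := by
  classical
  intro f
  have hE : ∀ e : EE, ∃ e' : EE, n • e' = e := by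
    rintro ⟨a, b⟩
    obtain ⟨r, rfl⟩ := QuotientAddGroup.mk_surjective b
    have hn' : (n : ℚ) ≠ 0 := by exact_mod_cast hn
    refine ⟨(a / n, ((r / n : ℚ) : AddCircle (1:ℚ))), ?_⟩
    rw [Prod.smul_mk]
    congr 1
    · rw [zsmul_eq_mul]; field_simp
    · have : n • (r / n : ℚ) = r := by rw [zsmul_eq_mul]; field_simp
      rw [← AddCircle.coe_zsmul, this]
  choose d hd using hE
  refine ⟨f.mapRange (fun e => if e = 0 then 0 else d e) (by simp), ?_⟩
  ext1 i
  simp only [Finsupp.smul_apply, Finsupp.mapRange_apply]
  by_cases h : f i = 0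
  · rw [if_pos h, h, smul_zero]
  · rw [if_neg h, hd]

universe u

theorem exists_embedding (A : Type u) [AddCommGroup A] :
    ∃ (ι : Type u) (h : A →+ (ι →₀ EE)), Function.Injective h := by
  classical
  -- linear combinations
  let L : (A →₀ ℤ) →ₗ[ℤ] A := Finsupp.linearCombination ℤ (fun a : A => a)
  let S : Set (Set A) := {B | 0 ∉ B ∧ ∀ n : A →₀ ℤ, (n.support : Set A) ⊆ B → L n = 0 → ∀ b, n b • b = 0}
  obtain ⟨B, hB⟩ : ∃ B, Maximal (· ∈ S) B := by
    apply zorn_subset
    intro c hcS hc
    refine ⟨⋃₀ c, ⟨?_, ?_⟩, fun s hs => subset_sUnion_of_mem hs⟩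
    · rintro ⟨s, hs, h0⟩
      exact (hcS hs).1 h0
    · intro n hn hL b
      rcases c.eq_empty_or_nonempty with rfl | hne
      · simp only [sUnion_empty, subset_empty_iff] at hn
        have : n = 0 := by
          rw [← Finsupp.support_eq_empty]
          exact_mod_cast hn
        rw [this]; simp
      · obtain ⟨s, hs, hns⟩ := hc.directedOn.exists_mem_subset_of_finset_subset_biUnion (f := id) hne
          (s := n.support) (by simpa [sUnion_eq_biUnion] using hn)
        exact (hcS hs).2 n hns hL b
  have hB0 : 0 ∉ B := hB.prop.1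
  have hBi := hB.prop.2
  -- essential
  have hess : ∀ k : A, k ≠ 0 → ∃ m : ℤ, m • k ≠ 0 ∧ ∃ n : A →₀ ℤ, (n.support : Set A) ⊆ B ∧ m • k = L n := by
    intro k hk
    by_cases hkB : k ∈ B
    · refine ⟨1, by simpa using hk, Finsupp.single k 1, ?_, ?_⟩
      · intro a ha
        have := Finsupp.support_single_subset (Finset.mem_coe.1 ha)
        rw [Finset.mem_singleton.1 this]
        exact hkB
      · simp [L]
    · have hnot : insert k B ∉ S := by
        intro hS
        have := hB.le_of_ge hS (subset_insert k B)
        exact hkB (this (mem_insert k B))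
      simp only [S, Set.mem_ofPred_eq, not_and] at hnot
      have h0 : (0:A) ∉ insert k B := by
        rw [mem_insert_iff, not_or]
        exact ⟨fun h => hk h.symm, hB0⟩
      have h1 := hnot h0
      push Not at h1
      obtain ⟨n, hn, hL, b, hb⟩ := h1
      -- split n
      set n' := n.erase k with hn'
      have hsplit : n = Finsupp.single k (n k) + n' := (Finsupp.single_add_erase k n).symm
      have hn'B : (n'.support : Set A) ⊆ B := by
        intro a ha
        rw [hn', Finsupp.support_erase] at ha
        have ha' := Finset.mem_erase.1 (Finset.mem_coe.1 ha)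
        rcases hn (Finset.mem_coe.2 ha'.2) with h | h
        · exact absurd h ha'.1
        · exact h
      have hLs : n k • k + L n' = 0 := by
        have h2 := hL
        rw [hsplit, map_add] at h2
        simpa [L, hn'] using h2
      refine ⟨n k, ?_, -n', ?_, ?_⟩
      · intro h
        rw [h, zero_add] at hLs
        have h3 := hBi n' hn'B hLs
        by_cases hbk : b = k
        · subst hbk; exact hb h
        · apply hb
          have := h3 b
          rwa [hn', Finsupp.erase_ne hbk] at this
      · rwa [Finsupp.support_neg]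
      · rw [map_neg]
        exact eq_neg_of_add_eq_zero_left hLs
  -- orders
  choose e he using fun b : A => EE_order (addOrderOf b)
  have hord : ∀ (b : A) (n : ℤ), n • b = 0 ↔ n • e b = 0 := by
    intro b n
    rw [← addOrderOf_dvd_iff_zsmul_eq_zero, ← addOrderOf_dvd_iff_zsmul_eq_zero, he]
  -- the maps on the free module
  let LB : (B →₀ ℤ) →ₗ[ℤ] A := Finsupp.linearCombination ℤ (fun b : B => (b : A))
  let D : (B →₀ ℤ) →ₗ[ℤ] (B →₀ EE) := Finsupp.linearCombination ℤ (fun b : B => Finsupp.single b (e b))
  have hLBL : ∀ n : B →₀ ℤ, LB n = L (n.mapDomain Subtype.val) := by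
    intro n
    simp only [LB, L, Finsupp.linearCombination_mapDomain]
    rfl
  have hD : ∀ (n : B →₀ ℤ) (b : B), D n b = n b • e b := by
    intro n b
    simp only [D, Finsupp.linearCombination_apply, Finsupp.sum_apply]
    rw [Finsupp.sum]
    rw [Finset.sum_eq_single b]
    · simp
    · intro c _ hc
      rw [Finsupp.smul_apply, Finsupp.single_eq_of_ne (by exact fun h => hc h.symm), smul_zero]
    · intro hb
      rw [Finsupp.notMem_support_iff.1 hb]; simp
  have hker : LinearMap.ker LB ≤ LinearMap.ker D := by
    intro n hn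
    rw [LinearMap.mem_ker] at hn ⊢
    rw [hLBL] at hn
    have h1 := hBi (n.mapDomain Subtype.val) (by
      intro a ha
      have := Finsupp.mapDomain_support (Finset.mem_coe.1 ha)
      rw [Finset.mem_image] at this
      obtain ⟨b, _, hb⟩ := this
      rw [← hb]; exact b.2) hn
    ext1 b
    rw [hD, Finsupp.zero_apply, ← hord]
    have := h1 b
    rwa [Finsupp.mapDomain_apply Subtype.val_injective] at this
  have hdiv : Module.Baer ℤ (B →₀ EE) := by
    let _ : DivisibleBy (B →₀ EE) ℤ := divisibleByOfSMulRightSurj _ _ (fun hn => smul_surj hn)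
    exact Module.Baer.of_divisible _
  let K := LinearMap.ker LB
  obtain ⟨h, hh⟩ := hdiv.extension_property (K.liftQ LB le_rfl) (by
    rw [← LinearMap.ker_eq_bot]
    exact Submodule.ker_liftQ_eq_bot _ _ _ le_rfl) (K.liftQ D hker)
  have hh' : ∀ n : B →₀ ℤ, h (LB n) = D n := by
    intro n
    have := LinearMap.congr_fun hh (Submodule.Quotient.mk n)
    simpa using this
  refine ⟨B, h.toAddMonoidHom, ?_⟩
  rw [injective_iff_map_eq_zero]
  intro k hk0
  by_contra hk
  obtain ⟨m, hm, n, hnB, hmn⟩ := hess k hk
  obtain ⟨n', hn'⟩ : ∃ n' : B →₀ ℤ, n'.mapDomain Subtype.val = n :=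
    ⟨n.comapDomain Subtype.val Subtype.val_injective.injOn,
      Finsupp.mapDomain_comapDomain _ Subtype.val_injective _ (by rw [Subtype.range_coe]; exact hnB)⟩
  have h1 : h (m • k) = 0 := by
    rw [map_smul]
    have : h k = 0 := hk0
    rw [this, smul_zero]
  rw [hmn, ← hn', ← hLBL, hh'] at h1
  apply hm
  rw [hmn, ← hn', ← hLBL]
  have h2 : ∀ b : B, n' b • (b : A) = 0 := by
    intro b
    rw [hord, ← hD, h1]; rfl
  simp only [LB, Finsupp.linearCombination_apply, Finsupp.sum]
  exact Finset.sum_eq_zero (fun b _ => h2 b)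

theorem good_of_comm {G : Type*} [Group G] (hcomm : ∀ x y : G, x * y = y * x) : Good G := by
  classical
  let _ : CommGroup G := { (inferInstance : Group G) with mul_comm := hcomm }
  obtain ⟨ι, h, hinj⟩ := exists_embedding (Additive G)
  have hc : Countable (Multiplicative EE) := EE_countable
  let φ : G →* (∀ _ : ι, Multiplicative EE) :=
    { toFun := fun x i => Multiplicative.ofAdd (h (Additive.ofMul x) i)
      map_one' := by
        funext i
        simp
      map_mul' := by
        intro x y
        funext i
        simp [ofMul_mul] }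
  have hφ : Function.Injective φ := by
    intro x y hxy
    have : h (Additive.ofMul x) = h (Additive.ofMul y) := by
      ext1 i
      have := congrFun hxy i
      exact this
    exact hinj this
  have hfin : ∀ x, {i | φ x i ≠ 1}.Finite := by
    intro x
    refine (h (Additive.ofMul x)).support.finite_toSet.subset ?_
    intro i hi
    simp only [Set.mem_ofPred_eq] at hi
    rw [Finset.mem_coe, Finsupp.mem_support_iff]
    intro h0
    apply hi
    change Multiplicative.ofAdd (h (Additive.ofMul x) i) = 1
    rw [h0]; rfl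
  intro _ _ hres
  exact good_of_restricted (D := fun _ : ι => Multiplicative EE) φ hφ hfin hres

end H495R
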