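import Mathlib
import Pool.Agent.Helper495.Rb.Tame

/-! A countable irresolvable group has an open subgroup of exponent two. -/

open Set Filter Topology

namespace H495R

lemma lex_append : ∀ (u v s t : List ℕ), (∀ a ∈ u ++ v, ∀ c ∈ s ++ t, c < a) → u ≠ v →
    (u ++ s < v ++ t ↔ u < v) := by
  intro u
  induction u with
  | nil =>
    intro v s t h hne
    cases v with
    | nil => exact absurd rfl hne
    | cons b v =>
      constructor
      · intro _; exact List.nil_lt_cons b v
      · intro _
        cases s with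
        | nil => exact List.nil_lt_cons b (v ++ t)
        | cons c s =>
          have hc : c < b := h b (by simp) c (by simp)
          simp only [List.nil_append, List.cons_append]
          exact List.cons_lt_cons_iff.2 (Or.inl hc)
  | cons a u ih =>
    intro v s t h hne
    cases v with
    | nil =>
      constructor
      · intro hlt
        cases t with
        | nil => simp at hlt
        | cons c t =>
          have hc : c < a := h a (by simp) c (by simp)
          simp only [List.nil_append, List.cons_append] at hlt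
          rcases List.cons_lt_cons_iff.1 hlt with h1 | h1
          · omega
          · omega
      · intro hlt; simp at hlt
    | cons b v =>
      simp only [List.cons_append]
      rw [List.cons_lt_cons_iff, List.cons_lt_cons_iff]
      by_cases hab : a = b
      · subst hab
        have hne' : u ≠ v := fun h => hne (by rw [h])
        have := ih v s t (fun x hx c hc => h x (by
          simp only [List.cons_append, List.mem_cons, List.mem_append] at hx ⊢; tauto) c hc) hne'
        simp only [lt_irrefl, true_and, false_or]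
        exact this
      · simp [hab]

theorem exponent_two_of_comm {G : Type*} [Group G] [TopologicalSpace G] [IsTopologicalGroup G]
    [Countable G] [T2Space G] (hb : ClBase G) (hG : NoRes G)
    (hC : ∀ x : G, ∀ᶠ y in 𝓝 (1:G), x * y = y * x) : ∀ᶠ y in 𝓝 (1:G), y * y = 1 := by
  by_contra hcon
  have hfr : ∃ᶠ y in 𝓝 (1:G), ¬ y * y = 1 := by
    rwa [Filter.not_eventually] at hcon
  obtain ⟨C⟩ := exists_coord hb (fun _ => univ) (fun _ => univ) (fun _ => univ_mem) rfl
    (fun _ => univ_mem) rfl
  let A : Set G := {y | (C.wd y).reverse < (C.wd y⁻¹).reverse}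
  obtain ⟨x, hx⟩ := exists_loc_const hG A
  have hinv : ∀ {P : G → Prop}, (∀ᶠ y in 𝓝 (1:G), P y) → ∀ᶠ y in 𝓝 (1:G), P y⁻¹ := by
    intro P hP
    have : Tendsto (fun y : G => y⁻¹) (𝓝 1) (𝓝 1) := by
      have := (continuous_inv (G := G)).tendsto 1
      rwa [inv_one] at this
    exact this.eventually hP
  have e1 := ev_W C (C.t x)
  have e2 := ev_W C (C.t x⁻¹)
  have e3 := hC x
  obtain ⟨y, ⟨⟨⟨⟨hy, h1⟩, h2⟩, h3⟩, h4⟩, h5⟩ :=
    ((((hfr.and_eventually (e1.and (hinv e1))).and_eventually (e2.and (hinv e2))).and_eventually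
      (e3.and (hinv e3))).and_eventually hx).and_eventually (hinv hx) |>.exists
  have hle : ∀ z : G, ∀ c ∈ C.wd z, c ≤ C.t z := by
    intro z c hc
    have hs := C.sorted z
    unfold Coord.t
    obtain ⟨l, l', hl⟩ := List.append_of_mem hc
    rw [hl, last_append, last_cons]
    rcases last_mem c l' with h | h
    · rw [h]
    · rw [hl] at hs
      have := (List.pairwise_append.1 hs).2.1
      exact le_of_lt ((List.pairwise_cons.1 this).1 _ h)
  -- the general claim
  have key : ∀ y : G, y * y ≠ 1 → y ∈ C.W (C.t x) → y⁻¹ ∈ C.W (C.t x) → y ∈ C.W (C.t x⁻¹) →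
      y⁻¹ ∈ C.W (C.t x⁻¹) → x * y = y * x → (x * y ∈ A ↔ y ∈ A) := by
    intro y hy a1 a2 a3 a4 hxy
    have b1 : C.wd (x * y) = C.wd x ++ C.wd y := C.app x y a1
    have b2 : C.wd (x * y)⁻¹ = C.wd x⁻¹ ++ C.wd y⁻¹ := by
      rw [hxy, mul_inv_rev]
      exact C.app x⁻¹ y⁻¹ a4
    have hne : (C.wd y).reverse ≠ (C.wd y⁻¹).reverse := by
      intro h
      have := C.wd_inj (List.reverse_injective h)
      apply hy
      nth_rewrite 2 [this]
      simp
    change (C.wd (x * y)).reverse < (C.wd (x * y)⁻¹).reverse ↔ (C.wd y).reverse < (C.wd y⁻¹).reverse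
    rw [b1, b2, List.reverse_append, List.reverse_append]
    apply lex_append _ _ _ _ _ hne
    intro a ha c hc
    simp only [List.mem_append, List.mem_reverse] at ha hc
    rcases hc with hc | hc
    · have h6 := hle x c hc
      rcases ha with ha | ha
      · exact lt_of_le_of_lt h6 (C.lt _ _ a1 a ha)
      · exact lt_of_le_of_lt h6 (C.lt _ _ a2 a ha)
    · have h6 := hle x⁻¹ c hc
      rcases ha with ha | ha
      · exact lt_of_le_of_lt h6 (C.lt _ _ a3 a ha)
      · exact lt_of_le_of_lt h6 (C.lt _ _ a4 a ha)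
  have hy' : y⁻¹ * y⁻¹ ≠ 1 := by
    intro h
    apply hy
    have : (y * y)⁻¹ = 1 := by rw [mul_inv_rev]; exact h
    exact inv_eq_one.1 this
  have c1 := key y hy h1.1 h1.2 h2.1 h2.2 h3.1
  have c2 := key y⁻¹ hy' h1.2 (by rw [inv_inv]; exact h1.1) h2.2 (by rw [inv_inv]; exact h2.1) h3.2
  have c3 : y ∈ A ↔ y⁻¹ ∈ A := by rw [← c1, ← c2, h4, h5]
  have hne : (C.wd y).reverse ≠ (C.wd y⁻¹).reverse := by
    intro h
    have := C.wd_inj (List.reverse_injective h)
    apply hy
    nth_rewrite 2 [this]
    simp
  have c4 : y ∈ A ↔ (C.wd y).reverse < (C.wd y⁻¹).reverse := Iff.rfl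
  have c5 : y⁻¹ ∈ A ↔ (C.wd y⁻¹).reverse < (C.wd y).reverse := by
    change (C.wd y⁻¹).reverse < (C.wd y⁻¹⁻¹).reverse ↔ _
    rw [inv_inv]
  rw [c4, c5] at c3
  rcases lt_or_gt_of_ne hne with h | h
  · exact absurd (c3.1 h) (not_lt_of_gt h)
  · exact absurd (c3.2 h) (not_lt_of_gt h)

/-- Katetov's lemma for injective maps -/
lemma katetov {X : Type*} (p : Ultrafilter X) (f : X → X) (hf : Function.Injective f)
    (h : p.map f = p) : {x | f x = x} ∈ p := by
  by_contra hcon
  have hD : {x | f x ≠ x} ∈ p := by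
    have := Ultrafilter.compl_mem_iff_notMem.2 hcon
    exact this
  obtain ⟨A, hA⟩ : ∃ A, Maximal (fun A : Set X => A ⊆ {x | f x ≠ x} ∧ ∀ x ∈ A, f x ∉ A) A := by
    apply zorn_subset
    intro c hcS hc
    refine ⟨⋃₀ c, ⟨?_, ?_⟩, fun s hs => subset_sUnion_of_mem hs⟩
    · exact sUnion_subset (fun s hs => (hcS hs).1)
    · rintro x ⟨s, hs, hxs⟩ ⟨t, ht, hxt⟩
      rcases hc.total hs ht with h | h
      · exact (hcS ht).2 x (h hxs) hxt
      · exact (hcS hs).2 x hxs (h hxt)
  have hpre : ∀ B : Set X, B ∈ p ↔ f ⁻¹' B ∈ p := by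
    intro B
    conv_lhs => rw [← h]
    exact Ultrafilter.mem_map
  have hcov : {x | f x ≠ x} ⊆ A ∪ f ⁻¹' A ∪ f '' A := by
    intro x hx
    by_contra hx2
    simp only [mem_union, mem_preimage, not_or] at hx2
    obtain ⟨⟨h1, h2⟩, h3⟩ := hx2
    have : insert x A ⊆ A := by
      apply hA.le_of_ge _ (subset_insert x A)
      refine ⟨insert_subset hx hA.prop.1, ?_⟩
      intro y hy hy2
      rcases mem_insert_iff.1 hy with rfl | hy
      · rcases mem_insert_iff.1 hy2 with h4 | h4
        · exact hx h4
        · exact h2 h4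
      · rcases mem_insert_iff.1 hy2 with h4 | h4
        · exact h3 ⟨y, hy, h4⟩
        · exact hA.prop.2 y hy h4
    exact h1 (this (mem_insert x A))
  have hnA : A ∉ p := by
    intro hAp
    have h1 := (hpre A).1 hAp
    obtain ⟨x, hx1, hx2⟩ := Ultrafilter.nonempty_of_mem (inter_mem hAp h1)
    exact hA.prop.2 x hx1 hx2
  rcases Ultrafilter.union_mem_iff.1 (mem_of_superset hD hcov) with h1 | h1
  · rcases Ultrafilter.union_mem_iff.1 h1 with h2 | h2
    · exact hnA h2
    · exact hnA ((hpre A).2 h2)
  · have h2 := (hpre _).1 h1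
    rw [hf.preimage_image] at h2
    exact hnA h2

section

variable {G : Type*} [Group G] [TopologicalSpace G] [IsTopologicalGroup G]

lemma T2_of_NoRes (hG : NoRes G) : T2Space G := by
  by_contra h
  exact hG (not_T2 h)

/-- In an irresolvable group every subgroup is closed. -/
theorem closed_of_NoRes (hG : NoRes G) (K : Subgroup G) : IsClosed (K : Set G) := by
  by_contra hcl
  have hne : ∃ x ∈ K.topologicalClosure, x ∉ K := by
    by_contra hcon
    push Not at hcon
    apply hcl
    have : (K : Set G) = closure (K : Set G) := by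
      apply subset_antisymm subset_closure
      intro x hx
      exact hcon x hx
    rw [this]
    exact isClosed_closure
  obtain ⟨x, hx, hxK⟩ := hne
  apply hG
  apply res_of_subgroup K.topologicalClosure
  set L := K.topologicalClosure with hL
  have hd : Dense {k : L | (k : G) ∈ K} := by
    intro k
    rw [closure_subtype]
    have : (Subtype.val '' {k : L | (k : G) ∈ K}) = (K : Set G) := by
      ext z
      constructor
      · rintro ⟨k, hk, rfl⟩; exact hk
      · intro hz; exact ⟨⟨z, K.le_topologicalClosure hz⟩, hz, rfl⟩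
    rw [this]
    exact k.2
  refine ⟨{k : L | (k : G) ∈ K}, hd, ?_⟩
  have h2 : Dense ((fun k : L => (⟨x, hx⟩ : L) * k) '' {k : L | (k : G) ∈ K}) := by
    have hsurj : Function.Surjective (fun k : L => (⟨x, hx⟩ : L) * k) :=
      (Equiv.mulLeft (⟨x, hx⟩ : L)).surjective
    exact hsurj.denseRange.dense_image (by fun_prop) hd
  exact h2.mono (by
    rintro _ ⟨k, hk, rfl⟩ hk2
    apply hxK
    have h3 : x * (k : G) ∈ K := hk2
    have h4 : (k : G) ∈ K := hk
    exact (K.mul_mem_cancel_right h4).1 h3)

/-- a set with `1` that belongs to all free ultrafilters converging to `1` is a neighbourhood -/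
lemma nhds_of_UF [T1Space G] {A : Set G} (h1 : (1:G) ∈ A)
    (h : ∀ p ∈ UF (univ : Set G), A ∈ p) : A ∈ 𝓝 (1:G) := by
  rw [mem_iff_ultrafilter]
  intro p hp
  by_cases hfree : (p : Filter G) ≤ cofinite
  · exact h p ⟨hfree, hp, univ_mem⟩
  · obtain ⟨a, ha⟩ : ∃ a : G, {a} ∈ p := by
      by_contra hcon
      push Not at hcon
      apply hfree
      rw [le_cofinite_iff_compl_singleton_mem]
      intro a
      exact Ultrafilter.compl_mem_iff_notMem.2 (hcon a)
    have ha1 : a = 1 := by
      by_contra hne
      have h2 : ({a}ᶜ : Set G) ∈ 𝓝 (1:G) := isOpen_compl_singleton.mem_nhds (by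
        simpa using fun h => hne h.symm)
      have h3 := inter_mem ha (hp h2)
      obtain ⟨z, hz1, hz2⟩ := Ultrafilter.nonempty_of_mem h3
      exact hz2 hz1
    subst ha1
    exact mem_of_superset ha (by simpa using h1)

/-- conjugation of ultrafilters -/
noncomputable def conjU (g : G) (p : Ultrafilter G) : Ultrafilter G := p.map (fun x => g * x * g⁻¹)

lemma conjU_one (p : Ultrafilter G) : conjU 1 p = p := by
  have : (fun x : G => 1 * x * 1⁻¹) = id := by funext x; simp
  unfold conjU
  rw [this, Ultrafilter.map_id]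

lemma conjU_mul (g h : G) (p : Ultrafilter G) : conjU (g * h) p = conjU g (conjU h p) := by
  unfold conjU
  rw [Ultrafilter.map_map]
  congr 1
  funext x
  simp [mul_assoc]

lemma conjU_mem (g : G) {p : Ultrafilter G} (hp : p ∈ UF (univ : Set G)) :
    conjU g p ∈ UF (univ : Set G) := by
  obtain ⟨h1, h2, -⟩ := hp
  have hinj : Function.Injective (fun x : G => g * x * g⁻¹) := by
    intro x y hxy
    simpa using hxy
  refine ⟨?_, ?_, univ_mem⟩
  · unfold conjU
    rw [Ultrafilter.coe_map]
    exact (map_mono h1).trans hinj.tendsto_cofinite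
  · unfold conjU
    rw [Ultrafilter.coe_map]
    have : Tendsto (fun x : G => g * x * g⁻¹) (𝓝 1) (𝓝 1) := by
      have hc : Continuous (fun x : G => g * x * g⁻¹) := by fun_prop
      have := hc.tendsto 1
      simpa using this
    exact (map_mono h2).trans this

/-- the conjugation action on the free ultrafilters converging to `1` -/
noncomputable def conjAct : MulAction G (UF (univ : Set G)) where
  smul g p := ⟨conjU g p.1, conjU_mem g p.2⟩
  one_smul p := Subtype.ext (conjU_one p.1)
  mul_smul g h p := Subtype.ext (conjU_mul g h p.1)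

theorem open_boolean [Countable G] (hG : NoRes G) :
    ∃ K : Subgroup G, IsOpen (K : Set G) ∧ ∀ x ∈ K, x * x = 1 := by
  have hT2 : T2Space G := T2_of_NoRes hG
  have hfin : (UF (univ : Set G)).Finite := by
    by_contra h
    exact hG (countable_T2 h)
  have hfin' : Finite (UF (univ : Set G)) := hfin
  let act : MulAction G (UF (univ : Set G)) := conjAct
  set H := (MulAction.toPermHom G (UF (univ : Set G))).ker with hH
  have hHfin : H.FiniteIndex := inferInstance
  have hHcl : IsClosed (H : Set G) := closed_of_NoRes hG H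
  have hHo : IsOpen (H : Set G) := H.isOpen_of_isClosed_of_finiteIndex hHcl
  have hHres : NoRes H := fun h => hG (res_of_subgroup H h)
  have hcent : ∀ h : H, ∀ᶠ y in 𝓝 (1:H), h * y = y * h := by
    intro h
    have h1 : {y : G | (h : G) * y * (h : G)⁻¹ = y} ∈ 𝓝 (1:G) := by
      apply nhds_of_UF (by simp)
      intro p hp
      apply katetov p (fun y => (h : G) * y * (h : G)⁻¹)
      · intro x y hxy
        simpa using hxy
      · have h2 : MulAction.toPermHom G (UF (univ : Set G)) h = 1 := h.2
        have h3 := Equiv.ext_iff.1 h2 ⟨p, hp⟩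
        exact congrArg Subtype.val h3
    rw [nhds_subtype_eq_comap]
    refine mem_comap.2 ⟨_, h1, ?_⟩
    intro y hy
    apply Subtype.ext
    have h2 : (h : G) * y * (h : G)⁻¹ = y := hy
    rw [Subgroup.coe_mul, Subgroup.coe_mul]
    exact mul_inv_eq_iff_eq_mul.1 h2
  have hexp := exponent_two_of_comm clBase_of_countable hHres hcent
  have hexpG : ∀ᶠ y in 𝓝 (1:G), y * y = 1 := by
    rw [nhds_subtype_eq_comap] at hexp
    obtain ⟨S, hS, hS2⟩ := mem_comap.1 hexp
    have hS' : S ∈ 𝓝 (1:G) := hS
    filter_upwards [hS', hHo.mem_nhds H.one_mem] with y h1 h2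
    have := hS2 (show (⟨y, h2⟩ : H) ∈ Subtype.val ⁻¹' S from h1)
    exact congrArg Subtype.val this
  obtain ⟨V, hV, hVs⟩ : ∃ V ∈ 𝓝 (1:G), ∀ x ∈ V, ∀ y ∈ V, x * y ∈ {y : G | y * y = 1} :=
    exists_nhds_one_split hexpG
  have hV1 : (1:G) ∈ V := mem_of_mem_nhds hV
  have hsq : ∀ x ∈ V, x * x = 1 := by
    intro x hx
    have := hVs x hx 1 hV1
    simpa using this
  have hcomm : ∀ x ∈ V, ∀ y ∈ V, x * y = y * x := by
    intro x hx y hy
    have h1 : (x * y) * (x * y) = 1 := hVs x hx y hy
    have h2 := hsq x hx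
    have h3 := hsq y hy
    have e1 : x⁻¹ = x := inv_eq_of_mul_eq_one_left h2
    have e2 : y⁻¹ = y := inv_eq_of_mul_eq_one_left h3
    have e3 : (x * y)⁻¹ = x * y := inv_eq_of_mul_eq_one_left h1
    rw [← e3, mul_inv_rev, e1, e2]
  have hc1 : Subgroup.closure V ≤ Subgroup.centralizer V := by
    rw [Subgroup.closure_le]
    intro x hx
    rw [SetLike.mem_coe, Subgroup.mem_centralizer_iff]
    intro y hy
    exact hcomm y hy x hx
  have hc2 : ∀ x ∈ Subgroup.closure V, ∀ y ∈ Subgroup.closure V, x * y = y * x := by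
    have hVc : Subgroup.closure V ≤ Subgroup.centralizer (Subgroup.closure V : Set G) := by
      rw [Subgroup.closure_le]
      intro x hx
      rw [SetLike.mem_coe, Subgroup.mem_centralizer_iff]
      intro y hy
      exact (Subgroup.mem_centralizer_iff.1 (hc1 hy) x hx).symm
    intro x hx y hy
    exact Subgroup.mem_centralizer_iff.1 (hVc hy) x hx
  refine ⟨Subgroup.closure V, ?_, ?_⟩
  · exact Subgroup.isOpen_of_mem_nhds _ (g := 1) (mem_of_superset hV Subgroup.subset_closure)
  · intro x hx
    induction hx using Subgroup.closure_induction with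
    | mem x hx => exact hsq x hx
    | one => simp
    | mul x y hx hy ihx ihy =>
      have := hc2 x hx y hy
      calc x * y * (x * y) = x * (y * x) * y := by group
        _ = x * (x * y) * y := by rw [this]
        _ = (x * x) * (y * y) := by group
        _ = 1 := by rw [ihx, ihy, one_mul]
    | inv x hx ih =>
      rw [← mul_inv_rev, ih, inv_one]

end

end H495R
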