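import Mathlib
import Pool.Agent.Helper495.Rb.Zel

/-! Irresolvable topologies on tame groups. -/

open Set Filter Topology

namespace H495R

theorem open_countable_boolean {G : Type*} [Group G] [TopologicalSpace G] [IsTopologicalGroup G]
    (hgood : Good G) (hG : NoRes G) :
    ∃ K : Subgroup G, IsOpen (K : Set G) ∧ (K : Set G).Countable ∧ ∀ x ∈ K, x * x = 1 := by
  obtain ⟨U, hU, hUc⟩ := hgood hG
  set H := Subgroup.closure U with hH
  have hHc : Countable H := closure_countable hUc
  have hHo : IsOpen (H : Set G) :=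
    Subgroup.isOpen_of_mem_nhds _ (g := 1) (mem_of_superset hU Subgroup.subset_closure)
  have hHres : NoRes H := fun h => hG (res_of_subgroup H h)
  obtain ⟨K, hK, hK2⟩ := open_boolean hHres
  refine ⟨K.map H.subtype, ?_, ?_, ?_⟩
  · have h1 : ((K.map H.subtype : Subgroup G) : Set G) = Subtype.val '' (K : Set H) := by
      simp
    rw [h1]
    exact hHo.isOpenMap_subtype_val _ hK
  · have h1 : ((K.map H.subtype : Subgroup G) : Set G) ⊆ (H : Set G) := by
      rintro _ ⟨k, _, rfl⟩
      exact k.2
    exact (Set.countable_coe_iff.1 hHc).mono h1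
  · rintro _ ⟨k, hk, rfl⟩
    have := hK2 k hk
    exact congrArg Subtype.val this

theorem infinite_of_open {G : Type*} [Group G] [TopologicalSpace G] [IsTopologicalGroup G]
    [T1Space G] (hnd : ¬ DiscreteTopology G) (K : Subgroup G) (hK : IsOpen (K : Set G)) :
    (K : Set G).Infinite := by
  intro hfin
  apply hnd
  have h1 : ({1} : Set G) ∈ 𝓝 (1:G) := by
    have h2 : (((K : Set G) \ {1})ᶜ : Set G) ∈ 𝓝 (1:G) := by
      apply (hfin.subset sdiff_subset).isClosed.isOpen_compl.mem_nhds
      simp
    refine mem_of_superset (inter_mem h2 (hK.mem_nhds K.one_mem)) ?_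
    rintro x ⟨hx1, hx2⟩
    by_contra hne
    exact hx1 ⟨hx2, hne⟩
  exact discreteTopology_of_isOpen_singleton_one (by
    rw [isOpen_iff_mem_nhds]
    intro x hx
    rw [mem_singleton_iff.1 hx]
    exact h1)

end H495R
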